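import Mathlib

/-!
# An open convex set whose closure locates a monotone operator need not locate it

Let `f, g` be linearly independent continuous functionals on a real locally convex space `X`, put
`V = {f < 1}`, choose `u` with `f u = 1`, `g u = 0` and let `T` consist of the pairs `(v, 0)` with
`f v ≤ 1`, `g v ≤ 0` and of the pairs `(u, t g)`, `t ≥ 0`. The ray over the boundary point `u` forces
every point monotonically related to `T` to satisfy `g ≤ 0`, so the closure of `V` locates `T`; but
`u ∉ V`, and a point `x ∈ V` with `g x > 0` is, together with `g`, monotonically related to `T|V`.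
-/

set_option autoImplicit false

namespace Pool.Agent.Results.MP_ddf116_an.ClosureLocates

section defs

variable {X : Type*} [AddCommGroup X] [Module ℝ X] [TopologicalSpace X]

/-- The graph `T ⊆ X × X*` is monotone. -/
def IsMonotoneOp (T : Set (X × (X →L[ℝ] ℝ))) : Prop :=
  ∀ p ∈ T, ∀ q ∈ T, 0 ≤ (p.2 - q.2) (p.1 - q.1)

/-- The domain `D(T)`. -/
def dom (T : Set (X × (X →L[ℝ] ℝ))) : Set X := {x | ∃ x' : X →L[ℝ] ℝ, (x, x') ∈ T}

/-- The restriction `T|V`, with graph `T ∩ (V × X*)`. -/
def restrict (T : Set (X × (X →L[ℝ] ℝ))) (V : Set X) : Set (X × (X →L[ℝ] ℝ)) :=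
  {p | p ∈ T ∧ p.1 ∈ V}

/-- `(x, x')` is monotonically related to the operator `S`. -/
def Related (S : Set (X × (X →L[ℝ] ℝ))) (x : X) (x' : X →L[ℝ] ℝ) : Prop :=
  ∀ p ∈ S, 0 ≤ (x' - p.2) (x - p.1)

/-- `V` locates `T`: every `(x, x')` in `V × X*` that is monotonically related to `T|V` has
`x ∈ D(T)`. -/
def Locates (V : Set X) (T : Set (X × (X →L[ℝ] ℝ))) : Prop :=
  ∀ x ∈ V, ∀ x' : X →L[ℝ] ℝ, Related (restrict T V) x x' → x ∈ dom T

end defs

/-- The implication of Q1 fails in the space `X`: there are a monotone operator `T` and an open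
convex set `V` meeting `D(T)` such that the closure of `V` locates `T` but `V` does not. -/
def FailsIn (X : Type*) [AddCommGroup X] [Module ℝ X] [TopologicalSpace X] : Prop :=
  ∃ (T : Set (X × (X →L[ℝ] ℝ))) (V : Set X), IsMonotoneOp T ∧ IsOpen V ∧ Convex ℝ V ∧
    (V ∩ dom T).Nonempty ∧ Locates (closure V) T ∧ ¬ Locates V T

lemma fails {X : Type*} [AddCommGroup X] [Module ℝ X] [TopologicalSpace X]
    [IsTopologicalAddGroup X] [ContinuousSMul ℝ X]
    (f g : X →L[ℝ] ℝ) (a b : X) (hfa : f a = 1) (hga : g a = 0) (hfb : f b = 0) (hgb : g b = 1) :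
    FailsIn X := by
  classical
  set T : Set (X × (X →L[ℝ] ℝ)) :=
    {p | (p.2 = 0 ∧ f p.1 ≤ 1 ∧ g p.1 ≤ 0) ∨ ∃ t : ℝ, 0 ≤ t ∧ p = (a, t • g)} with hT
  set V : Set X := {x | f x < 1} with hV
  have hclV : closure V ⊆ {x | f x ≤ 1} := by
    apply closure_minimal
    · intro x hx
      exact le_of_lt (show f x < 1 from hx)
    · exact isClosed_le f.continuous continuous_const
  refine ⟨T, V, ?_, ?_, ?_, ?_, ?_, ?_⟩
  · rintro p (⟨hp1, hp2, hp3⟩ | ⟨t, ht, rfl⟩) q (⟨hq1, hq2, hq3⟩ | ⟨s, hs, rfl⟩)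
    · simp [hp1, hq1]
    · simp only [hp1, zero_sub, map_sub, ContinuousLinearMap.neg_apply,
        ContinuousLinearMap.smul_apply, hga, smul_eq_mul]
      nlinarith
    · simp only [hq1, sub_zero, map_sub, ContinuousLinearMap.smul_apply, hga, smul_eq_mul]
      nlinarith
    · simp
  · exact isOpen_lt f.continuous continuous_const
  · exact convex_halfSpace_lt (f := f) f.isLinear 1
  · refine ⟨0, by simp [hV], 0, Or.inl ⟨rfl, by simp, by simp⟩⟩
  · intro x hx x' hrel
    have hx1 : f x ≤ 1 := hclV hx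
    have ha : a ∈ closure V := by
      -- `a` is the limit of `(1 - 1/(n+1)) a`
      have h1 : Filter.Tendsto (fun n : ℕ => (1 - 1 / ((n : ℝ) + 1)) • a) Filter.atTop
          (nhds ((1 - 0 : ℝ) • a)) :=
        (tendsto_const_nhds.sub tendsto_one_div_add_atTop_nhds_zero_nat).smul tendsto_const_nhds
      rw [sub_zero, one_smul] at h1
      refine mem_closure_of_tendsto h1 (Filter.Eventually.of_forall fun n => ?_)
      simp only [hV, Set.mem_setOf_eq, map_smul, hfa, smul_eq_mul, mul_one]
      have : (0 : ℝ) < 1 / ((n : ℝ) + 1) := by positivity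
      linarith
    have hg : g x ≤ 0 := by
      by_contra hcon
      push Not at hcon
      obtain ⟨n, hn⟩ := exists_nat_gt (x' (x - a) / g x)
      have h2 := hrel (a, (n : ℝ) • g) ⟨Or.inr ⟨n, Nat.cast_nonneg n, rfl⟩, ha⟩
      simp only [ContinuousLinearMap.sub_apply, ContinuousLinearMap.smul_apply, map_sub, hga,
        smul_eq_mul] at h2
      rw [map_sub, div_lt_iff₀ hcon] at hn
      linarith
    exact ⟨0, Or.inl ⟨rfl, hx1, hg⟩⟩
  · intro hloc
    have h3 : b ∈ dom T := by
      apply hloc b (by simp [hV, hfb]) g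
      rintro ⟨v, v'⟩ ⟨hp, hpV⟩
      rcases hp with ⟨hp1, -, hp3⟩ | ⟨t, -, hp⟩
      · simp only at hp1 hp3
        simp only [hp1, sub_zero, map_sub, hgb]
        linarith
      · exfalso
        simp only [Prod.mk.injEq] at hp
        have : f v < 1 := hpV
        rw [hp.1, hfa] at this
        exact lt_irrefl _ this
    obtain ⟨x', (⟨-, -, h4⟩ | ⟨t, -, h4⟩)⟩ := h3
    · simp only [hgb] at h4
      linarith
    · simp only [Prod.mk.injEq] at h4
      rw [h4.1, hga] at hgb
      norm_num at hgb

/-- **Negative answer to Q1.** The implication fails in every Hausdorff real locally convex space of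
dimension at least two; in particular it does not hold for all real locally convex spaces. -/
theorem result :
    (∀ (X : Type) [AddCommGroup X] [Module ℝ X] [TopologicalSpace X] [IsTopologicalAddGroup X]
      [ContinuousSMul ℝ X] [LocallyConvexSpace ℝ X] [T2Space X],
      (∃ x y : X, LinearIndependent ℝ ![x, y]) → FailsIn X) ∧
    ¬ ∀ (X : Type) [AddCommGroup X] [Module ℝ X] [TopologicalSpace X] [IsTopologicalAddGroup X]
      [ContinuousSMul ℝ X] [LocallyConvexSpace ℝ X] (T : Set (X × (X →L[ℝ] ℝ))) (V : Set X),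
      IsMonotoneOp T → IsOpen V → Convex ℝ V → (V ∩ dom T).Nonempty →
        Locates (closure V) T → Locates V T := by
  have h1 : ∀ (X : Type) [AddCommGroup X] [Module ℝ X] [TopologicalSpace X]
      [IsTopologicalAddGroup X] [ContinuousSMul ℝ X] [LocallyConvexSpace ℝ X] [T2Space X],
      (∃ x y : X, LinearIndependent ℝ ![x, y]) → FailsIn X := by
    intro X _ _ _ _ _ _ _ ⟨x, y, hxy⟩
    rw [LinearIndependent.pair_iff] at hxy
    have hx : x ≠ 0 := by
      rintro rfl
      have := hxy 1 0 (by simp)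
      norm_num at this
    obtain ⟨f, hf⟩ := SeparatingDual.exists_eq_one (R := ℝ) hx
    set y' : X := y - f y • x with hy'
    have hy0 : y' ≠ 0 := by
      intro h
      have := hxy (-(f y)) 1 (by rw [neg_smul, one_smul, ← h, hy']; abel)
      norm_num at this
    obtain ⟨g, hg⟩ := SeparatingDual.exists_eq_one (R := ℝ) hy0
    have hfy : f y' = 0 := by simp [hy', hf]
    refine fails f (g - g x • f) x y' hf ?_ hfy ?_
    · simp [hf]
    · simp [hfy, hg]
  refine ⟨h1, ?_⟩
  intro h
  obtain ⟨T, V, h2, h3, h4, h5, h6, h7⟩ := h1 (ℝ × ℝ) ⟨(1, 0), (0, 1), by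
    rw [LinearIndependent.pair_iff]
    intro s t hst
    simpa using hst⟩
  exact h7 (h (ℝ × ℝ) T V h2 h3 h4 h5 h6)

end Pool.Agent.Results.MP_ddf116_an.ClosureLocates
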